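import Mathlib

/-!
# Elimination over local rings and nilpotent matrices
-/

namespace Pool.Agent.NilAm

open Matrix

section elim

variable {A : Type*} [Ring A]

/-- Elimination: if every element outside of `I` is a unit, an injective matrix with more rows
than columns can be replaced by one with all entries in `I`. -/
theorem elim (I : Ideal A) (hI : ∀ x, x ∉ I → IsUnit x) :
    ∀ (n m : ℕ) (_ : n < m) (M : Matrix (Fin m) (Fin n) A)
      (_ : ∀ v : Fin m → A, v ᵥ* M = 0 → v = 0),
    ∃ (n' m' : ℕ) (_ : n' < m') (M' : Matrix (Fin m') (Fin n') A),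
      (∀ i j, M' i j ∈ I) ∧ ∀ v : Fin m' → A, v ᵥ* M' = 0 → v = 0 := by
  intro n
  induction n with
  | zero =>
    intro m hm M hM
    exact ⟨0, m, hm, M, fun i j => j.elim0, hM⟩
  | succ k ih =>
    intro m hm M hM
    by_cases hall : ∀ i j, M i j ∈ I
    · exact ⟨k + 1, m, hm, M, hall, hM⟩
    push Not at hall
    obtain ⟨i0, j0, h0⟩ := hall
    obtain ⟨u, hu⟩ := hI _ h0
    obtain ⟨l, rfl⟩ : ∃ l, m = l + 1 := ⟨m - 1, by omega⟩
    refine ih l (by omega) (fun i j => M (i0.succAbove i) (j0.succAbove j)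
      - M (i0.succAbove i) j0 * (↑u⁻¹ : A) * M i0 (j0.succAbove j)) ?_
    intro v hv
    have hw := hM (Fin.insertNth i0 (-(∑ i, v i * M (i0.succAbove i) j0) * (↑u⁻¹ : A)) v) ?_
    · funext i
      have := congrFun hw (i0.succAbove i)
      simpa using this
    · funext j
      simp only [vecMul, dotProduct, Pi.zero_apply]
      rw [Fin.sum_univ_succAbove _ i0]
      simp only [Fin.insertNth_apply_same, Fin.insertNth_apply_succAbove]
      by_cases hj : j = j0
      · subst hj
        rw [← hu, mul_assoc, Units.inv_mul, mul_one]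
        simp
      · obtain ⟨j', rfl⟩ := Fin.exists_succAbove_eq hj
        have h1 := congrFun hv j'
        simp only [vecMul, dotProduct, Pi.zero_apply, mul_sub] at h1
        rw [Finset.sum_sub_distrib, sub_eq_zero] at h1
        rw [h1, neg_mul, neg_mul, Finset.sum_mul, Finset.sum_mul]
        have h2 : ∀ i, v i * M (i0.succAbove i) j0 * (↑u⁻¹ : A) * M i0 (j0.succAbove j')
            = v i * (M (i0.succAbove i) j0 * (↑u⁻¹ : A) * M i0 (j0.succAbove j')) := by
          intro i
          simp only [mul_assoc]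
        rw [Finset.sum_congr rfl fun i _ => h2 i]
        simp

/-- An injective matrix with more rows than columns and entries in `I` gives a square
non-nilpotent matrix with entries in `I`. -/
theorem exists_not_nilpotent [Nontrivial A] (I : Ideal A) {n m : ℕ} (hnm : n < m)
    (M : Matrix (Fin m) (Fin n) A) (hI : ∀ i j, M i j ∈ I)
    (hM : ∀ v : Fin m → A, v ᵥ* M = 0 → v = 0) :
    ∃ T : Matrix (Fin m) (Fin m) A, (∀ i j, T i j ∈ I) ∧ ¬ IsNilpotent T := by
  let T : Matrix (Fin m) (Fin m) A := fun i j => if h : (j : ℕ) < n then M i ⟨j, h⟩ else 0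
  refine ⟨T, ?_, ?_⟩
  · intro i j
    by_cases h : (j : ℕ) < n
    · simp only [T, dif_pos h]
      exact hI _ _
    · simp only [T, dif_neg h]
      exact I.zero_mem
  · have hT : ∀ v : Fin m → A, v ᵥ* T = 0 → v = 0 := by
      intro v hv
      apply hM
      funext j
      have h1 := congrFun hv ⟨j, by omega⟩
      simp only [vecMul, dotProduct, T, Pi.zero_apply] at h1 ⊢
      rw [← h1]
      refine Finset.sum_congr rfl fun i _ => ?_
      rw [dif_pos j.isLt]
    have hpow : ∀ (k : ℕ) (v : Fin m → A), v ᵥ* T ^ k = 0 → v = 0 := by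
      intro k
      induction k with
      | zero => intro v hv; simpa using hv
      | succ k ih =>
        intro v hv
        rw [pow_succ, ← vecMul_vecMul] at hv
        exact ih v (hT _ hv)
    rintro ⟨k, hk⟩
    have h1 := hpow k (fun _ => 1) (by rw [hk, vecMul_zero])
    have h2 := congrFun h1 ⟨0, by omega⟩
    exact one_ne_zero h2

end elim

section amitsur

open Polynomial

variable {K B : Type*} [Field K] [Ring B] [Algebra K B]

theorem jacobson_left_inv {x : B} (hx : x ∈ (⊥ : Ideal B).jacobson) (y : B) :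
    ∃ z : B, z * (1 + y * x) = 1 := by
  obtain ⟨z, hz⟩ := Ideal.mem_jacobson_iff.1 hx y
  refine ⟨z, ?_⟩
  rw [Ideal.mem_bot] at hz
  rw [mul_add, mul_one, ← mul_assoc, add_comm, ← sub_eq_zero]
  exact hz

/-- An element of the Jacobson radical that is a root of a nonzero polynomial is nilpotent. -/
theorem nilpotent_of_aeval {x : B} (hx : x ∈ (⊥ : Ideal B).jacobson) (p : K[X]) (hp : p ≠ 0)
    (h : aeval x p = 0) : IsNilpotent x := by
  obtain ⟨q, hq, hq0⟩ := Polynomial.exists_eq_pow_rootMultiplicity_mul_and_not_dvd p hp 0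
  rw [map_zero, sub_zero] at hq hq0
  set k := p.rootMultiplicity 0 with hk
  have hc : q.coeff 0 ≠ 0 := by
    intro h0
    exact hq0 (Polynomial.X_dvd_iff.2 h0)
  -- `q = q0 (1 + r X)`
  obtain ⟨r, hr⟩ : ∃ r : K[X], q = C (q.coeff 0) * (1 + r * X) := by
    have h1 : X ∣ q - C (q.coeff 0) := by
      rw [Polynomial.X_dvd_iff]
      simp
    obtain ⟨s, hs⟩ := h1
    refine ⟨C (q.coeff 0)⁻¹ * s, ?_⟩
    have h2 : q = C (q.coeff 0) + X * s := by rw [← hs]; ring
    have h3 : C (q.coeff 0) * C (q.coeff 0)⁻¹ = (1 : K[X]) := by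
      rw [← C_mul, mul_inv_cancel₀ hc, C_1]
    calc q = C (q.coeff 0) + X * s := h2
      _ = C (q.coeff 0) + (C (q.coeff 0) * C (q.coeff 0)⁻¹) * (s * X) := by rw [h3]; ring
      _ = _ := by ring
  obtain ⟨z, hz⟩ := jacobson_left_inv hx (aeval x r)
  refine ⟨k, ?_⟩
  rw [hq, mul_comm, hr, map_mul, map_mul, map_pow, aeval_X, aeval_C] at h
  have h4 : aeval x (1 + r * X) = 1 + aeval x r * x := by simp
  rw [h4, mul_assoc] at h
  have h5 : (1 + aeval x r * x) * x ^ k = 0 := by
    have h6 : algebraMap K B (q.coeff 0)⁻¹ * (algebraMap K B (q.coeff 0) *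
        ((1 + aeval x r * x) * x ^ k)) = 0 := by rw [h, mul_zero]
    rwa [← mul_assoc, ← map_mul, inv_mul_cancel₀ hc, map_one, one_mul] at h6
  calc x ^ k = z * (1 + aeval x r * x) * x ^ k := by rw [hz, one_mul]
    _ = z * ((1 + aeval x r * x) * x ^ k) := by rw [mul_assoc]
    _ = 0 := by rw [h5, mul_zero]

/-- Amitsur: in an algebra of countable dimension over an uncountable field the Jacobson radical is
nil. -/
theorem nilpotent_of_jacobson [Uncountable K] (hB : Module.rank K B ≤ Cardinal.aleph0)
    {x : B} (hx : x ∈ (⊥ : Ideal B).jacobson) : IsNilpotent x := by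
  classical
  -- resolvents
  have h1 : ∀ c : K, ∃ z : B, z * (1 + c • x) = 1 := by
    intro c
    obtain ⟨z, hz⟩ := jacobson_left_inv hx (algebraMap K B c)
    exact ⟨z, by rw [Algebra.smul_def]; exact hz⟩
  choose z hz using h1
  let f : {c : K // c ≠ 0} → B := fun c => z c.1
  have hdep : ¬ LinearIndependent K f := by
    intro hli
    have h2 := hli.cardinal_lift_le_rank
    have h3 := Cardinal.lift_le_aleph0.1 (h2.trans (Cardinal.lift_le_aleph0.2 hB))
    rw [Cardinal.mk_le_aleph0_iff] at h3
    have h4 : (Set.univ : Set K).Countable := by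
      have h5 : (Set.univ : Set K) ⊆ {c : K | c ≠ 0} ∪ {0} := by
        intro c _
        by_cases hc : c = 0
        · exact Or.inr hc
        · exact Or.inl hc
      refine Set.Countable.mono h5 (Set.Countable.union ?_ (Set.countable_singleton 0))
      exact Set.countable_coe_iff.1 h3
    exact not_countable (α := K) (Set.countable_univ_iff.1 h4)
  rw [linearIndependent_iff'] at hdep
  push Not at hdep
  obtain ⟨s, g, hg, c0, hc0, hg0⟩ := hdep
  let p : K[X] := ∑ c ∈ s, C (g c) * ∏ d ∈ s.erase c, (1 + C d.1 * X)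
  have hp : aeval x p = 0 := by
    have h2 : ∀ c ∈ s, aeval x (C (g c) * ∏ d ∈ s.erase c, (1 + C d.1 * X))
        = (g c • f c) * aeval x (∏ d ∈ s, (1 + C d.1 * X)) := by
      intro c hc
      rw [← Finset.mul_prod_erase s _ hc, map_mul, map_mul, aeval_C]
      have h3 : aeval x (1 + C c.1 * X) = 1 + c.1 • x := by
        simp [Algebra.smul_def]
      rw [h3, ← mul_assoc, smul_mul_assoc, hz c.1, Algebra.smul_def, mul_one]
    rw [map_sum, Finset.sum_congr rfl h2, ← Finset.sum_mul, hg, zero_mul]
  have hp0 : p ≠ 0 := by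
    intro h2
    have h3 : p.eval (-(c0.1)⁻¹) = 0 := by rw [h2, eval_zero]
    rw [eval_finsetSum, Finset.sum_eq_single c0] at h3
    · rw [eval_mul, eval_C, mul_eq_zero, eval_prod, Finset.prod_eq_zero_iff] at h3
      rcases h3 with h3 | ⟨d, hd, h3⟩
      · exact hg0 h3
      · simp only [eval_add, eval_one, eval_mul, eval_C, eval_X] at h3
        have h4 : d.1 * (c0.1)⁻¹ = 1 := by
          linear_combination -h3
        have h5 : d.1 = c0.1 := by
          rw [← div_eq_mul_inv, div_eq_one_iff_eq c0.2] at h4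
          exact h4
        exact Finset.ne_of_mem_erase hd (Subtype.ext h5)
    · intro c hc hne
      rw [eval_mul, eval_prod]
      apply mul_eq_zero_of_right
      apply Finset.prod_eq_zero (Finset.mem_erase.2 ⟨hne.symm, hc0⟩)
      simp only [eval_add, eval_one, eval_mul, eval_C, eval_X]
      rw [mul_neg, mul_inv_cancel₀ c0.2]
      ring
    · intro h4
      exact absurd hc0 h4
  exact nilpotent_of_aeval hx p hp0 hp

end amitsur

end Pool.Agent.NilAm
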