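import Mathlib

/-!
# Non-amenable groups: injective maps from a larger to a smaller free module

Bartholdi and Kielak: if finite subsets of `G` expand, then there is a matrix over the group
algebra with more rows than columns such that `v ↦ v ᵥ* M` is injective. Here an explicit matrix
built from moment curves.
-/

open scoped Pointwise

namespace Pool.Agent.NilAm

section lin

variable {K : Type*} [Field K]

theorem vander {ι : Type*} (s : Finset ι) (α : ι → K) (hα : Set.InjOn α s) (c : ι → K)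
    (N : ℕ) (hN : s.card ≤ N) (h : ∀ a < N, ∑ t ∈ s, c t * α t ^ a = 0) :
    ∀ t ∈ s, c t = 0 := by
  classical
  intro t0 ht0
  set L : Polynomial K := ∏ t ∈ s.erase t0, (Polynomial.X - Polynomial.C (α t)) with hL
  have hdeg : L.natDegree < N := by
    have h1 : L.natDegree ≤ ∑ t ∈ s.erase t0, (1 : ℕ) := by
      refine (Polynomial.natDegree_prod_le _ _).trans (Finset.sum_le_sum fun t _ => ?_)
      exact Polynomial.natDegree_X_sub_C_le _
    rw [Finset.sum_const, smul_eq_mul, mul_one, Finset.card_erase_of_mem ht0] at h1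
    have h2 : 0 < s.card := Finset.card_pos.2 ⟨t0, ht0⟩
    omega
  have h1 : ∑ t ∈ s, c t * L.eval (α t) = 0 := by
    have h2 : ∀ t ∈ s, c t * L.eval (α t)
        = ∑ a ∈ Finset.range N, L.coeff a * (c t * α t ^ a) := by
      intro t _
      rw [Polynomial.eval_eq_sum_range' hdeg, Finset.mul_sum]
      exact Finset.sum_congr rfl fun a _ => by ring
    rw [Finset.sum_congr rfl h2, Finset.sum_comm]
    apply Finset.sum_eq_zero
    intro a ha
    rw [← Finset.mul_sum, h a (Finset.mem_range.1 ha), mul_zero]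
  rw [Finset.sum_eq_single t0] at h1
  · rcases mul_eq_zero.1 h1 with h2 | h2
    · exact h2
    · exfalso
      rw [hL, Polynomial.eval_prod, Finset.prod_eq_zero_iff] at h2
      obtain ⟨t, ht, h3⟩ := h2
      rw [Polynomial.eval_sub, Polynomial.eval_X, Polynomial.eval_C, sub_eq_zero] at h3
      have := hα ht0 (Finset.mem_of_mem_erase ht) h3
      exact Finset.ne_of_mem_erase ht this.symm
  · intro t ht hne
    have : L.eval (α t) = 0 := by
      rw [hL, Polynomial.eval_prod]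
      apply Finset.prod_eq_zero (Finset.mem_erase.2 ⟨hne, ht⟩)
      simp
    rw [this, mul_zero]
  · intro h2
    exact absurd ht0 h2

theorem roots {R : ℕ} (x : Fin R → K) (s : Finset K) (hs : R ≤ s.card)
    (h : ∀ z ∈ s, ∑ i : Fin R, x i * z ^ (i : ℕ) = 0) : x = 0 := by
  classical
  by_cases hR : R = 0
  · subst hR
    funext i
    exact i.elim0
  set P : Polynomial K := ∑ i : Fin R, Polynomial.monomial (i : ℕ) (x i) with hP
  have hdeg : P.natDegree < s.card := by
    refine lt_of_lt_of_le ?_ hs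
    have h1 : P.natDegree ≤ R - 1 := by
      apply Polynomial.natDegree_sum_le_of_forall_le
      intro i _
      exact (Polynomial.natDegree_monomial_le _).trans (by have := i.isLt; omega)
    omega
  have h0 : P = 0 := by
    apply Polynomial.eq_zero_of_natDegree_lt_card_of_eval_eq_zero' P s _ hdeg
    intro z hz
    rw [hP, Polynomial.eval_finsetSum]
    simpa [Polynomial.eval_monomial] using h z hz
  funext i
  have h1 : P.coeff i = x i := by
    rw [hP, Polynomial.finsetSum_coeff]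
    rw [Finset.sum_eq_single i]
    · simp
    · intro j _ hj
      rw [Polynomial.coeff_monomial, if_neg]
      exact fun h => hj (Fin.ext h)
    · intro h2
      exact absurd (Finset.mem_univ _) h2
  rw [← h1, h0]
  simp

end lin

/-- columns of the matrix -/
abbrev Col (J : ℕ) : Type := Σ j : Fin (J + 1), Fin (2 ^ (j : ℕ)) × Fin (2 ^ (J - j))

theorem card_col (J : ℕ) : Fintype.card (Col J) = (J + 1) * 2 ^ J := by
  rw [Fintype.card_sigma]
  have h : ∀ j : Fin (J + 1), Fintype.card (Fin (2 ^ (j : ℕ)) × Fin (2 ^ (J - j))) = 2 ^ J := by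
    intro j
    rw [Fintype.card_prod, Fintype.card_fin, Fintype.card_fin, ← pow_add]
    congr 1
    have := j.isLt
    omega
  rw [Finset.sum_congr rfl fun j _ => h j]
  simp

section main

variable {K G : Type*} [Field K] [Group G] [DecidableEq G]

/-- the explicit matrix -/
noncomputable def mat (T : Finset G) (J : ℕ) (α : G → K) (γ : ℕ → G → ℕ → K) :
    Matrix (Fin ((J + 2) * 2 ^ J)) (Col J) (MonoidAlgebra K G) :=
  fun ρ c => ∑ t ∈ T, MonoidAlgebra.single t
    (α t ^ (c.2.1 : ℕ) * γ c.1 t c.2.2 ^ (ρ : ℕ))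

theorem vecMul_mat (T : Finset G) (J : ℕ) (α : G → K) (γ : ℕ → G → ℕ → K)
    (v : Fin ((J + 2) * 2 ^ J) → MonoidAlgebra K G) (c : Col J) (g : G) :
    (Matrix.vecMul v (mat T J α γ) c).coeff g
      = ∑ t ∈ T, (∑ ρ, (v ρ).coeff (g * t⁻¹) * γ c.1 t c.2.2 ^ (ρ : ℕ)) * α t ^ (c.2.1 : ℕ) := by
  have h1 : ∀ ρ, (v ρ * mat T J α γ ρ c).coeff g
      = ∑ t ∈ T, (v ρ).coeff (g * t⁻¹) * (α t ^ (c.2.1 : ℕ) * γ c.1 t c.2.2 ^ (ρ : ℕ)) := by
    intro ρ
    unfold mat
    rw [Finset.mul_sum, MonoidAlgebra.coeff_sum, Finsupp.finsetSum_apply]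
    refine Finset.sum_congr rfl fun t _ => ?_
    rw [MonoidAlgebra.coeff_mul_single_apply]
  unfold Matrix.vecMul dotProduct
  rw [MonoidAlgebra.coeff_sum, Finsupp.finsetSum_apply]
  rw [Finset.sum_congr rfl fun ρ _ => h1 ρ, Finset.sum_comm]
  refine Finset.sum_congr rfl fun t _ => ?_
  rw [Finset.sum_mul]
  exact Finset.sum_congr rfl fun ρ _ => by ring

/-- number of neighbours -/
def deg (F T : Finset G) (g : G) : ℕ := (T.filter fun t => g * t⁻¹ ∈ F).card

theorem deg_pos {F T : Finset G} {h t : G} (hh : h ∈ F) (ht : t ∈ T) : 0 < deg F T (h * t) :=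
  Finset.card_pos.2 ⟨t, Finset.mem_filter.2 ⟨ht, by simpa using hh⟩⟩

/-- double counting -/
theorem sum_inv_deg (F T : Finset G) :
    ∑ h ∈ F, ∑ t ∈ T, (1 : ℝ) / deg F T (h * t) = (F * T).card := by
  have h1 : ∑ h ∈ F, ∑ t ∈ T, (1 : ℝ) / deg F T (h * t)
      = ∑ g ∈ F * T, ∑ t ∈ T.filter (fun t => g * t⁻¹ ∈ F), (1 : ℝ) / deg F T g := by
    rw [← Finset.sum_product', Finset.sum_sigma']
    refine Finset.sum_bij' (fun p _ => ⟨p.1 * p.2, p.2⟩) (fun q _ => (q.1 * q.2⁻¹, q.2))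
      ?_ ?_ ?_ ?_ ?_
    · intro p hp
      rw [Finset.mem_product] at hp
      simp only [Finset.mem_sigma, Finset.mem_filter, mul_inv_cancel_right]
      exact ⟨Finset.mul_mem_mul hp.1 hp.2, hp.2, hp.1⟩
    · intro q hq
      simp only [Finset.mem_sigma, Finset.mem_filter] at hq
      exact Finset.mem_product.2 ⟨hq.2.2, hq.2.1⟩
    · intro p _
      simp
    · intro q _
      simp
    · intro p _
      rfl
  rw [h1]
  have h2 : ∀ g ∈ F * T, ∑ t ∈ T.filter (fun t => g * t⁻¹ ∈ F), (1 : ℝ) / deg F T g = 1 := by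
    intro g hg
    obtain ⟨h, hh, t, ht, rfl⟩ := Finset.mem_mul.1 hg
    rw [Finset.sum_const, nsmul_eq_mul]
    have : (0 : ℝ) < deg F T (h * t) := by exact_mod_cast deg_pos hh ht
    change (deg F T (h * t) : ℝ) * _ = 1
    field_simp
  rw [Finset.sum_congr rfl h2]
  simp

theorem exists_good (F T : Finset G) (hF : F.Nonempty) (κ : ℝ)
    (h : κ * F.card ≤ (F * T).card) :
    ∃ x ∈ F, κ ≤ ∑ t ∈ T, (1 : ℝ) / deg F T (x * t) := by
  by_contra hcon
  push Not at hcon
  have h1 : ∑ x ∈ F, ∑ t ∈ T, (1 : ℝ) / deg F T (x * t) < ∑ x ∈ F, κ :=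
    Finset.sum_lt_sum_of_nonempty hF fun x hx => hcon x hx
  rw [sum_inv_deg, Finset.sum_const, nsmul_eq_mul] at h1
  linarith

/-- The injectivity of the explicit matrix. -/
theorem mat_inj (T : Finset G) (J : ℕ) (hT : T.card ≤ 2 ^ J)
    (hexp : ∀ F : Finset G, F.Nonempty → 2 * (J + 2) * F.card ≤ (F * T).card)
    (α : G → K) (hα : Set.InjOn α T) (γ : ℕ → G → ℕ → K)
    (hγ : ∀ j ≤ J, ∀ t ∈ T, ∀ b < 2 ^ J, ∀ j' ≤ J, ∀ t' ∈ T, ∀ b' < 2 ^ J,
      γ j t b = γ j' t' b' → t = t' ∧ b = b')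
    (v : Fin ((J + 2) * 2 ^ J) → MonoidAlgebra K G)
    (hv : Matrix.vecMul v (mat T J α γ) = 0) : v = 0 := by
  classical
  set F : Finset G := Finset.univ.biUnion fun ρ => (v ρ).coeff.support with hFdef
  have hF0 : ∀ x, x ∉ F → ∀ ρ, (v ρ).coeff x = 0 := by
    intro x hx ρ
    by_contra h
    exact hx (Finset.mem_biUnion.2 ⟨ρ, Finset.mem_univ _, Finsupp.mem_support_iff.2 h⟩)
  by_contra hne
  have hFne : F.Nonempty := by
    obtain ⟨ρ, hρ⟩ := Function.ne_iff.1 hne
    have hρ2 : (v ρ).coeff ≠ 0 := fun h => hρ (MonoidAlgebra.coeff_eq_zero.1 h)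
    obtain ⟨x, hx⟩ := Finsupp.ne_iff.1 hρ2
    exact ⟨x, Finset.mem_biUnion.2 ⟨ρ, Finset.mem_univ _, Finsupp.mem_support_iff.2 hx⟩⟩
  obtain ⟨x, hx, hκ⟩ := exists_good F T hFne (2 * (J + 2)) (by exact_mod_cast hexp F hFne)
  -- vanishing
  have hvan : ∀ t ∈ T, ∀ j : ℕ, j ≤ J → deg F T (x * t) ≤ 2 ^ j → ∀ b < 2 ^ (J - j),
      ∑ ρ, (v ρ).coeff x * γ j t b ^ (ρ : ℕ) = 0 := by
    intro t ht j hj hdeg b hb
    have h1 := vander (T.filter fun s => x * t * s⁻¹ ∈ F) α
      (hα.mono (by intro s hs; exact (Finset.mem_filter.1 hs).1))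
      (fun s => ∑ ρ, (v ρ).coeff (x * t * s⁻¹) * γ j s b ^ (ρ : ℕ)) (2 ^ j) hdeg ?_ t ?_
    · simpa using h1
    · intro a ha
      have h2 : (Matrix.vecMul v (mat T J α γ)
          ⟨⟨j, by omega⟩, (⟨a, ha⟩, ⟨b, hb⟩)⟩).coeff (x * t) = 0 := by
        rw [hv]
        rfl
      rw [vecMul_mat] at h2
      rw [← h2, Finset.sum_filter]
      refine Finset.sum_congr rfl fun s _ => ?_
      by_cases hs : x * t * s⁻¹ ∈ F
      · rw [if_pos hs]
      · rw [if_neg hs]
        symm
        apply mul_eq_zero_of_left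
        exact Finset.sum_eq_zero fun ρ _ => by rw [hF0 _ hs, zero_mul]
    · exact Finset.mem_filter.2 ⟨ht, by simpa using hx⟩
  -- the scale of an element
  have hscale : ∀ t ∈ T, ∃ j ≤ J, deg F T (x * t) ≤ 2 ^ j ∧
      (2 : ℝ) ^ J / (2 * deg F T (x * t)) ≤ 2 ^ (J - j) := by
    intro t ht
    have hpos := deg_pos hx ht (T := T)
    have hle : deg F T (x * t) ≤ 2 ^ J := (Finset.card_filter_le _ _).trans hT
    refine ⟨Nat.clog 2 (deg F T (x * t)), ?_, Nat.le_pow_clog (by norm_num) _, ?_⟩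
    · exact Nat.clog_le_of_le_pow hle
    · set D := deg F T (x * t) with hD
      set j := Nat.clog 2 D with hj
      have hjJ : j ≤ J := Nat.clog_le_of_le_pow hle
      have h3 : 2 ^ j ≤ 2 * D := by
        by_cases hj0 : j = 0
        · rw [hj0]; omega
        · have h4 : ¬ D ≤ 2 ^ (j - 1) := by
            intro h5
            have := Nat.clog_le_of_le_pow h5
            omega
          have h6 : 2 ^ j = 2 * 2 ^ (j - 1) := by
            rw [← pow_succ']
            congr 1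
            omega
          omega
      have hDpos : (0 : ℝ) < 2 * D := by
        have : (0 : ℝ) < D := by exact_mod_cast hpos
        linarith
      rw [div_le_iff₀ hDpos]
      have h4 : ((2 : ℝ) ^ J) = 2 ^ (J - j) * 2 ^ j := by
        rw [← pow_add]
        congr 1
        omega
      rw [h4]
      have h5 : ((2 : ℝ) ^ j) ≤ 2 * D := by exact_mod_cast h3
      gcongr
  choose! j hjJ hjd hjs using hscale
  -- the set of roots
  set Z : Finset K := (T.sigma fun t => Finset.range (2 ^ (J - j t))).image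
    (fun p => γ (j p.1) p.1 p.2) with hZ
  have hcard : Z.card = ∑ t ∈ T, 2 ^ (J - j t) := by
    rw [hZ, Finset.card_image_of_injOn, Finset.card_sigma]
    · simp
    · rintro ⟨t, b⟩ hp ⟨t', b'⟩ hp' h
      simp only [Finset.coe_sigma, Set.mem_sigma_iff, Finset.mem_coe, Finset.mem_range] at hp hp'
      have e1 : b < 2 ^ J := lt_of_lt_of_le hp.2 (Nat.pow_le_pow_right (by norm_num) (by omega))
      have e2 : b' < 2 ^ J := lt_of_lt_of_le hp'.2 (Nat.pow_le_pow_right (by norm_num) (by omega))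
      obtain ⟨h1, h2⟩ := hγ _ (hjJ t hp.1) t hp.1 b e1 _ (hjJ t' hp'.1) t' hp'.1 b' e2 h
      subst h1
      subst h2
      rfl
  have hR : (J + 2) * 2 ^ J ≤ Z.card := by
    have h1 : ((J + 2) * 2 ^ J : ℝ) ≤ Z.card := by
      rw [hcard]
      push_cast
      calc ((J + 2) * 2 ^ J : ℝ) = 2 ^ J / 2 * (2 * (J + 2)) := by ring
        _ ≤ 2 ^ J / 2 * ∑ t ∈ T, (1 : ℝ) / deg F T (x * t) := by gcongr
        _ = ∑ t ∈ T, (2 : ℝ) ^ J / (2 * deg F T (x * t)) := by
          rw [Finset.mul_sum]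
          refine Finset.sum_congr rfl fun t ht => ?_
          have : (0 : ℝ) < deg F T (x * t) := by exact_mod_cast deg_pos hx ht
          field_simp
        _ ≤ ∑ t ∈ T, (2 : ℝ) ^ (J - j t) := Finset.sum_le_sum fun t ht => hjs t ht
    exact_mod_cast h1
  have hz := roots (fun ρ => (v ρ).coeff x) Z hR (by
    intro z hz
    rw [hZ, Finset.mem_image] at hz
    obtain ⟨⟨t, b⟩, hp, rfl⟩ := hz
    rw [Finset.mem_sigma, Finset.mem_range] at hp
    exact hvan t hp.1 _ (hjJ t hp.1) (hjd t hp.1) b hp.2)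
  obtain ⟨ρ, -, hρ⟩ := Finset.mem_biUnion.1 hx
  exact (Finsupp.mem_support_iff.1 hρ) (congrFun hz ρ)

end main

end Pool.Agent.NilAm
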