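import Mathlib

/-!
# Negation of the Foelner condition
-/

open scoped Pointwise

namespace Pool.Agent.NilAm

/-- Foelner's condition (for discrete groups equivalent to amenability): for every finite subset
`S` of `G` and every `ε > 0` there is a finite nonempty `F` with `|F S \ F| ≤ ε |F|`. -/
def FoelnerCondition (G : Type*) [Group G] : Prop :=
  ∀ (S : Finset G) (ε : ℝ), 0 < ε → ∃ F : Finset G, F.Nonempty ∧
    ((((F : Set G) * (S : Set G)) \ (F : Set G)).ncard : ℝ) ≤ ε * F.card

variable {G : Type*} [Group G]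

theorem closure_countable (S : Finset G) : Countable (Subgroup.closure (S : Set G)) := by
  let f : List (↥((S : Set G) ∪ (S : Set G)⁻¹)) → G := fun l => (l.map Subtype.val).prod
  have hc : Countable ↥((S : Set G) ∪ (S : Set G)⁻¹) :=
    (S.countable_toSet.union ((S.finite_toSet.inv).countable)).to_subtype
  have h1 : ((Subgroup.closure (S : Set G) : Subgroup G) : Set G) ⊆ Set.range f := by
    intro x hx
    have h2 : x ∈ Submonoid.closure ((S : Set G) ∪ (S : Set G)⁻¹) := by
      rw [← Subgroup.closure_toSubmonoid]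
      exact hx
    obtain ⟨l, hl, rfl⟩ := Submonoid.exists_list_of_mem_closure h2
    refine ⟨l.attach.map fun y => ⟨y.1, hl y.1 y.2⟩, ?_⟩
    change ((l.attach.map _).map Subtype.val).prod = l.prod
    rw [List.map_map]
    exact congrArg List.prod (List.attach_map_subtype_val l)
  exact ((Set.countable_range f).mono h1).to_subtype

/-- Expansion inside the subgroup generated by a finite set. -/
theorem exists_countable_of_not_foelner (h : ¬ FoelnerCondition G) :
    ∃ H : Subgroup G, Countable H ∧ ¬ FoelnerCondition H := by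
  classical
  unfold FoelnerCondition at h
  push Not at h
  obtain ⟨S, ε, hε, hS⟩ := h
  refine ⟨Subgroup.closure (S : Set G), ?_, ?_⟩
  · exact closure_countable S
  · intro hF
    let H := Subgroup.closure (S : Set G)
    let SH : Finset H := S.attach.image fun s => (⟨s.1, Subgroup.subset_closure s.2⟩ : H)
    have hF' := hF SH ε hε
    obtain ⟨F, hF1, hF2⟩ := hF'
    have h1 := hS (F.map ⟨Subtype.val, Subtype.val_injective⟩) (hF1.map)
    rw [Finset.card_map] at h1
    refine absurd hF2 (not_le.2 (lt_of_lt_of_le h1 ?_))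
    have h2 : (((F.map ⟨Subtype.val, Subtype.val_injective⟩ : Finset G) : Set G) * (S : Set G))
        \ ((F.map ⟨Subtype.val, Subtype.val_injective⟩ : Finset G) : Set G)
        ⊆ (Subtype.val : H → G) '' (((F : Set H) * (SH : Set H)) \ (F : Set H)) := by
      rintro x ⟨hx, hx2⟩
      obtain ⟨f, hf, s, hs, rfl⟩ := Set.mem_mul.1 hx
      rw [Finset.coe_map, Set.mem_image] at hf
      obtain ⟨f', hf', rfl⟩ := hf
      refine ⟨f' * (⟨s, Subgroup.subset_closure hs⟩ : H), ⟨?_, ?_⟩, rfl⟩
      · refine Set.mul_mem_mul hf' ?_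
        rw [Finset.mem_coe, Finset.mem_image]
        exact ⟨⟨s, hs⟩, Finset.mem_attach _ _, rfl⟩
      · intro h3
        apply hx2
        rw [Finset.coe_map]
        exact ⟨_, h3, rfl⟩
    have hfin : (((F : Set H) * (SH : Set H)) \ (F : Set H)).Finite :=
      ((F.finite_toSet).mul (SH.finite_toSet)).subset Set.sdiff_subset
    have h3 := (Set.ncard_le_ncard h2 (hfin.image _)).trans (Set.ncard_image_le hfin)
    exact_mod_cast h3

theorem exists_growth (L : ℕ) (ε : ℝ) (hε : 0 < ε) :
    ∃ m : ℕ, (2 * ((L * m : ℕ) + 2) : ℝ) ≤ (1 + ε) ^ m := by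
  have h := tendsto_pow_const_div_const_pow_of_one_lt 1 (show (1 : ℝ) < 1 + ε by linarith)
  have hc : (0 : ℝ) < 1 / (2 * L + 4) := by positivity
  obtain ⟨m, hm1, hm2⟩ := ((h.eventually (gt_mem_nhds hc)).and
    (Filter.eventually_ge_atTop 1)).exists
  refine ⟨m, ?_⟩
  have hpos : (0 : ℝ) < (1 + ε) ^ m := by positivity
  rw [pow_one, div_lt_div_iff₀ hpos (by positivity), one_mul] at hm1
  have hm3 : (1 : ℝ) ≤ m := by exact_mod_cast hm2
  push_cast
  nlinarith

/-- Expanding finite sets. -/
theorem exists_expanding [DecidableEq G] (h : ¬ FoelnerCondition G) :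
    ∃ (T : Finset G) (J : ℕ), T.card ≤ 2 ^ J ∧
      ∀ F : Finset G, F.Nonempty → 2 * (J + 2) * F.card ≤ (F * T).card := by
  unfold FoelnerCondition at h
  push Not at h
  obtain ⟨S, ε, hε, hS⟩ := h
  set S' := insert 1 S with hS'
  have h1 : ∀ F : Finset G, F.Nonempty → (1 + ε) * F.card ≤ (F * S').card := by
    intro F hF
    have h2 := hS F hF
    have h3 : (((F : Set G) * (S : Set G)) \ (F : Set G)).ncard = ((F * S) \ F).card := by
      rw [← Finset.coe_mul, ← Finset.coe_sdiff, Set.ncard_coe_finset]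
    rw [h3] at h2
    have h4 : F ∪ ((F * S) \ F) ⊆ F * S' := by
      apply Finset.union_subset
      · intro x hx
        exact Finset.mem_mul.2 ⟨x, hx, 1, Finset.mem_insert_self _ _, mul_one _⟩
      · refine Finset.sdiff_subset.trans (Finset.mul_subset_mul_left (Finset.subset_insert _ _))
    have h5 := Finset.card_le_card h4
    rw [Finset.card_union_of_disjoint Finset.disjoint_sdiff] at h5
    have h6 : (F.card : ℝ) + ((F * S) \ F).card ≤ (F * S').card := by exact_mod_cast h5
    linarith
  have h2 : ∀ (m : ℕ) (F : Finset G), F.Nonempty → (1 + ε) ^ m * F.card ≤ (F * S' ^ m).card := by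
    intro m
    induction m with
    | zero => intro F _; simp
    | succ m ih =>
      intro F hF
      have hne : (F * S' ^ m).Nonempty := hF.mul (Finset.Nonempty.pow ⟨1, Finset.mem_insert_self _ _⟩)
      have h3 := h1 _ hne
      have h4 := ih F hF
      rw [pow_succ S', ← mul_assoc]
      calc (1 + ε) ^ (m + 1) * F.card = (1 + ε) * ((1 + ε) ^ m * F.card) := by ring
        _ ≤ (1 + ε) * (F * S' ^ m).card := by gcongr
        _ ≤ _ := h3
  obtain ⟨m, hm⟩ := exists_growth S'.card ε hε
  refine ⟨S' ^ m, S'.card * m, ?_, ?_⟩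
  · calc (S' ^ m).card ≤ S'.card ^ m := Finset.card_pow_le
      _ ≤ (2 ^ S'.card) ^ m := Nat.pow_le_pow_left (Nat.lt_two_pow_self).le _
      _ = _ := by rw [← pow_mul]
  · intro F hF
    have h3 := h2 m F hF
    have h4 : (2 * ((S'.card * m : ℕ) + 2) : ℝ) * F.card ≤ (F * S' ^ m).card := by
      refine le_trans ?_ h3
      gcongr
    exact_mod_cast h4

end Pool.Agent.NilAm
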