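import Pool.Agent.NilAm.Src
import Pool.Agent.NilAm.Alg

/-!
# Nil augmentation ideals and amenability: auxiliary results
-/

namespace Pool.Agent.NilAm

variable {K G : Type*} [Field K] [Group G]

/-- The augmentation ideal of `K[G]`: the (left) ideal generated by the `g - 1`. -/
noncomputable def augIdeal (K G : Type*) [Field K] [Group G] : Ideal (MonoidAlgebra K G) :=
  Ideal.span {y | ∃ g : G, y = MonoidAlgebra.of K G g - 1}

theorem sub_mem (x : MonoidAlgebra K G) :
    ∃ c : K, x - algebraMap K (MonoidAlgebra K G) c ∈ augIdeal K G := by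
  induction x using MonoidAlgebra.induction_on with
  | of g =>
    refine ⟨1, ?_⟩
    rw [map_one]
    exact Ideal.subset_span ⟨g, rfl⟩
  | add x y hx hy =>
    obtain ⟨c, hc⟩ := hx
    obtain ⟨d, hd⟩ := hy
    refine ⟨c + d, ?_⟩
    have : x + y - algebraMap K (MonoidAlgebra K G) (c + d)
        = (x - algebraMap K (MonoidAlgebra K G) c) + (y - algebraMap K (MonoidAlgebra K G) d) := by
      rw [map_add]; abel
    rw [this]
    exact Ideal.add_mem _ hc hd
  | smul r x hx =>
    obtain ⟨c, hc⟩ := hx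
    refine ⟨r * c, ?_⟩
    have : r • x - algebraMap K (MonoidAlgebra K G) (r * c)
        = algebraMap K (MonoidAlgebra K G) r * (x - algebraMap K (MonoidAlgebra K G) c) := by
      rw [mul_sub, map_mul, Algebra.smul_def]
    rw [this]
    exact Ideal.mul_mem_left _ _ hc

theorem isUnit_of_notMem (hnil : ∀ x ∈ augIdeal K G, IsNilpotent x) (x : MonoidAlgebra K G)
    (hx : x ∉ augIdeal K G) : IsUnit x := by
  obtain ⟨c, hc⟩ := sub_mem x
  have hc0 : c ≠ 0 := by
    rintro rfl
    rw [map_zero, sub_zero] at hc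
    exact hx hc
  have h1 : IsUnit (algebraMap K (MonoidAlgebra K G) c) := (isUnit_iff_ne_zero.2 hc0).map _
  have h2 := (hnil _ hc).isUnit_add_left_of_commute h1 (Algebra.commutes _ _).symm
  simpa using h2

theorem le_jacobson (hnil : ∀ x ∈ augIdeal K G, IsNilpotent x) :
    augIdeal K G ≤ (⊥ : Ideal (MonoidAlgebra K G)).jacobson := by
  intro x hx
  rw [Ideal.mem_jacobson_iff]
  intro y
  obtain ⟨u, hu⟩ := (hnil _ (Ideal.mul_mem_left _ y hx)).isUnit_one_add
  refine ⟨(↑u⁻¹ : MonoidAlgebra K G), ?_⟩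
  rw [Ideal.mem_bot]
  have h1 : (↑u⁻¹ : MonoidAlgebra K G) * (1 + y * x) = 1 := by rw [← hu]; exact u.inv_mul
  rw [mul_add, mul_one, ← mul_assoc] at h1
  rw [sub_eq_zero, add_comm]
  exact h1

theorem rank_le [Countable G] (m : ℕ) :
    Module.rank K (Matrix (Fin m) (Fin m) (MonoidAlgebra K G)) ≤ Cardinal.aleph0 := by
  have h1 : Module.rank K (MonoidAlgebra K G) ≤ Cardinal.aleph0 := by
    have h2 := (MonoidAlgebra.coeffLinearEquiv (S := K) (M := G) K).lift_rank_eq
    rw [rank_finsupp_self] at h2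
    have h3 : Cardinal.lift.{_} (Module.rank K (MonoidAlgebra K G)) ≤ Cardinal.aleph0 := by
      rw [h2, Cardinal.lift_le_aleph0, Cardinal.lift_le_aleph0]
      exact Cardinal.mk_le_aleph0
    exact Cardinal.lift_le_aleph0.1 h3
  rw [rank_matrix_module]
  simp only [Cardinal.mk_fin, Cardinal.lift_natCast]
  refine (mul_le_mul' (b := Cardinal.aleph0) (d := Cardinal.aleph0) ?_ ?_).trans
    Cardinal.aleph0_mul_aleph0.le
  · exact (mul_le_mul' (Cardinal.natCast_le_aleph0) (Cardinal.natCast_le_aleph0)).trans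
      Cardinal.aleph0_mul_aleph0.le
  · exact Cardinal.lift_le_aleph0.2 h1

/-- Amitsur for group algebras: for countable `G` and uncountable `K` with nil augmentation ideal,
all matrices over the augmentation ideal are nilpotent. -/
theorem matrix_nil [Countable G] [Uncountable K] (hnil : ∀ x ∈ augIdeal K G, IsNilpotent x)
    {m : ℕ} (T : Matrix (Fin m) (Fin m) (MonoidAlgebra K G)) (hT : ∀ i j, T i j ∈ augIdeal K G) :
    IsNilpotent T := by
  apply nilpotent_of_jacobson (K := K) (rank_le (K := K) (G := G) m)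
  have h1 : T ∈ ((⊥ : Ideal (MonoidAlgebra K G)).jacobson).matrix (Fin m) :=
    fun i j => le_jacobson hnil (hT i j)
  have h2 := Ideal.matrix_jacobson_le _ h1
  rwa [Ideal.matrix_bot] at h2

/-- If the strong rank condition fails and the augmentation ideal is nil, some matrix over the
augmentation ideal is not nilpotent. -/
theorem exists_of_not_src (h : ¬ StrongRankCondition (MonoidAlgebra K G))
    (hnil : ∀ x ∈ augIdeal K G, IsNilpotent x) :
    ∃ (m : ℕ) (T : Matrix (Fin m) (Fin m) (MonoidAlgebra K G)),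
      (∀ i j, T i j ∈ augIdeal K G) ∧ ¬ IsNilpotent T := by
  have h1 : ∃ (n m : ℕ) (f : (Fin n → MonoidAlgebra K G) →ₗ[MonoidAlgebra K G]
      (Fin m → MonoidAlgebra K G)), Function.Injective f ∧ m < n := by
    by_contra hcon
    push Not at hcon
    exact h ⟨fun {n m} f hf => hcon n m f hf⟩
  obtain ⟨n, m, f, hf, hmn⟩ := h1
  obtain ⟨n', m', hnm', M', hM', hinj'⟩ := elim (augIdeal K G) (isUnit_of_notMem hnil) m n hmn
    (LinearMap.toMatrixRight' f) (by
      intro v hv
      have h2 : Matrix.toLinearMapRight' (LinearMap.toMatrixRight' f) v = 0 := hv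
      rw [LinearEquiv.symm_apply_apply] at h2
      exact hf (by rw [h2, map_zero]))
  obtain ⟨T, hT1, hT2⟩ := exists_not_nilpotent (augIdeal K G) hnm' M' hM' hinj'
  exact ⟨m', T, hT1, hT2⟩

/-- For a non-amenable group the nilpotency fails for some matrix over the augmentation ideal. -/
theorem exists_matrix (h : ¬ FoelnerCondition G) :
    ∃ (m : ℕ) (T : Matrix (Fin m) (Fin m) (MonoidAlgebra K G)),
      (∀ i j, T i j ∈ augIdeal K G) ∧ ¬ IsNilpotent T := by
  by_cases hnil : ∀ x ∈ augIdeal K G, IsNilpotent x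
  · exact exists_of_not_src (not_src h) hnil
  · push Not at hnil
    obtain ⟨x, hx, hx2⟩ := hnil
    refine ⟨1, Matrix.diagonal fun _ => x, ?_, ?_⟩
    · intro i j
      rw [Subsingleton.elim i j, Matrix.diagonal_apply_eq]
      exact hx
    · rintro ⟨k, hk⟩
      apply hx2
      refine ⟨k, ?_⟩
      rw [Matrix.diagonal_pow] at hk
      have := congrFun (congrFun hk 0) 0
      simpa using this

theorem nil_of_subgroup (H : Subgroup G) (hnil : ∀ x ∈ augIdeal K G, IsNilpotent x) :
    ∀ x ∈ augIdeal K H, IsNilpotent x := by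
  let φ := MonoidAlgebra.mapDomainRingHom K H.subtype
  have hφ : Function.Injective φ := MonoidAlgebra.mapDomain_injective Subtype.val_injective
  intro x hx
  have h1 : φ x ∈ augIdeal K G := by
    have h2 : augIdeal K H ≤ (augIdeal K G).comap φ := by
      refine Ideal.span_le.2 ?_
      rintro y ⟨g, rfl⟩
      change φ (MonoidAlgebra.of K H g - 1) ∈ augIdeal K G
      rw [map_sub, map_one]
      refine Ideal.subset_span ⟨(g : G), ?_⟩
      congr 1
      change MonoidAlgebra.mapDomain _ (MonoidAlgebra.single g 1) = MonoidAlgebra.single (g : G) 1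
      rw [MonoidAlgebra.mapDomain_single]
      rfl
    exact h2 hx
  obtain ⟨k, hk⟩ := hnil _ h1
  exact ⟨k, hφ (by rw [map_pow, hk, map_zero])⟩

theorem foelner_of_nil [Uncountable K] (hnil : ∀ x ∈ augIdeal K G, IsNilpotent x) :
    FoelnerCondition G := by
  by_contra h
  obtain ⟨H, hH, hF⟩ := exists_countable_of_not_foelner h
  obtain ⟨m, T, hT1, hT2⟩ := exists_matrix (K := K) hF
  exact hT2 (matrix_nil (nil_of_subgroup H hnil) T hT1)

end Pool.Agent.NilAm
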