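import Pool.Agent.NilAm.BK
import Pool.Agent.NilAm.Growth

/-!
# The strong rank condition fails for group algebras of non-amenable groups
-/

open scoped Pointwise

namespace Pool.Agent.NilAm

theorem exists_card_bound {G : Type*} [Group G] (h : ¬ FoelnerCondition G) :
    ∃ N : ℕ, ∀ (F : Type*) [Field F] (_ : Fin N ↪ F),
      ¬ StrongRankCondition (MonoidAlgebra F G) := by
  classical
  obtain ⟨T, J, hT, hexp⟩ := exists_expanding h
  let I := Fin (J + 1) × T × Fin (2 ^ J)
  refine ⟨Fintype.card I, fun F _ e0 hsrc => ?_⟩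
  let e : I ↪ F := (Fintype.equivFin I).toEmbedding.trans e0
  let γ : ℕ → G → ℕ → F := fun j t b =>
    if h : j < J + 1 ∧ t ∈ T ∧ b < 2 ^ J then e (⟨j, h.1⟩, ⟨t, h.2.1⟩, ⟨b, h.2.2⟩) else 0
  have hval : ∀ (j : ℕ) (hj : j < J + 1) (t : G) (ht : t ∈ T) (b : ℕ) (hb : b < 2 ^ J),
      γ j t b = e (⟨j, hj⟩, ⟨t, ht⟩, ⟨b, hb⟩) := fun j hj t ht b hb => dif_pos ⟨hj, ht, hb⟩
  have hγ : ∀ j ≤ J, ∀ t ∈ T, ∀ b < 2 ^ J, ∀ j' ≤ J, ∀ t' ∈ T, ∀ b' < 2 ^ J,
      γ j t b = γ j' t' b' → t = t' ∧ b = b' := by
    intro j hj t ht b hb j' hj' t' ht' b' hb' heq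
    rw [hval j (by omega) t ht b hb, hval j' (by omega) t' ht' b' hb'] at heq
    have h1 := e.injective heq
    have h2 : (⟨t, ht⟩ : T) = ⟨t', ht'⟩ :=
      congrArg (fun p : Fin (J + 1) × T × Fin (2 ^ J) => p.2.1) h1
    have h3 : (⟨b, hb⟩ : Fin (2 ^ J)) = ⟨b', hb'⟩ :=
      congrArg (fun p : Fin (J + 1) × T × Fin (2 ^ J) => p.2.2) h1
    exact ⟨congrArg Subtype.val h2, congrArg Fin.val h3⟩
  have hα : Set.InjOn (fun t => γ 0 t 0) T := by
    intro t ht t' ht' heq
    exact (hγ 0 (by omega) t ht 0 (by positivity) 0 (by omega) t' ht' 0 (by positivity) heq).1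
  have hinj := mat_inj T J hT hexp (fun t => γ 0 t 0) hα γ hγ
  let M := mat T J (fun t => γ 0 t 0) γ
  have hcard : Fintype.card (Col J) = (J + 1) * 2 ^ J := card_col J
  let eC : Fin ((J + 1) * 2 ^ J) ≃ Col J := (Fintype.equivFinOfCardEq hcard).symm
  let f : (Fin ((J + 2) * 2 ^ J) → MonoidAlgebra F G) →ₗ[MonoidAlgebra F G]
      (Fin ((J + 1) * 2 ^ J) → MonoidAlgebra F G) :=
    (LinearMap.funLeft (MonoidAlgebra F G) (MonoidAlgebra F G) eC).comp M.vecMulLinear
  have hf : Function.Injective f := by
    rw [← LinearMap.ker_eq_bot, LinearMap.ker_eq_bot']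
    intro v hv
    apply hinj v
    funext c
    have h1 := congrFun hv (eC.symm c)
    simp only [f, LinearMap.comp_apply, LinearMap.funLeft_apply, Equiv.apply_symm_apply,
      Matrix.vecMulLinear_apply] at h1
    exact h1
  have h1 := hsrc.le_of_fin_injective f hf
  have h2 : (J + 2) * 2 ^ J = (J + 1) * 2 ^ J + 2 ^ J := by ring
  have h3 : 0 < 2 ^ J := by positivity
  omega

section ext

variable {K F G : Type*} [Field K] [Field F] [Algebra K F] [FiniteDimensional K F] [Group G]

/-- The strong rank condition passes to finite extensions of the coefficient field. -/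
theorem src_of_ext (hsrc : StrongRankCondition (MonoidAlgebra K G)) :
    StrongRankCondition (MonoidAlgebra F G) := by
  classical
  let φ : MonoidAlgebra K G →+* MonoidAlgebra F G := MonoidAlgebra.mapRingHom G (algebraMap K F)
  letI : Module (MonoidAlgebra K G) (MonoidAlgebra F G) := Module.compHom _ φ
  let d := Module.finrank K F
  let b : Module.Basis (Fin d) K F := Module.finBasis K F
  let g : (Fin d → MonoidAlgebra K G) →ₗ[MonoidAlgebra K G] MonoidAlgebra F G :=
    Fintype.linearCombination (MonoidAlgebra K G) (fun a => MonoidAlgebra.single 1 (b a))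
  have hg : ∀ (w : Fin d → MonoidAlgebra K G) (x : G),
      (g w).coeff x = ∑ a, ((w a).coeff x) • b a := by
    intro w x
    simp only [g, Fintype.linearCombination_apply]
    rw [MonoidAlgebra.coeff_sum, Finsupp.finsetSum_apply]
    refine Finset.sum_congr rfl fun a _ => ?_
    change (φ (w a) * MonoidAlgebra.single 1 (b a)).coeff x = _
    rw [MonoidAlgebra.coeff_mul_single_apply, inv_one, mul_one, Algebra.smul_def]
    rfl
  have hbij : Function.Bijective g := by
    constructor
    · rw [← LinearMap.ker_eq_bot, LinearMap.ker_eq_bot']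
      intro w hw
      funext a
      ext x
      have h1 := hg w x
      rw [hw] at h1
      have h2 : ∑ a, ((w a).coeff x) • b a = 0 := by rw [← h1]; rfl
      exact Fintype.linearIndependent_iff.1 b.linearIndependent _ h2 a
    · intro y
      refine ⟨fun a => MonoidAlgebra.ofCoeff
        (y.coeff.mapRange (fun z => b.repr z a) (by simp)), ?_⟩
      ext x
      rw [hg]
      simp only [MonoidAlgebra.coeff_ofCoeff, Finsupp.mapRange_apply]
      exact b.sum_repr _
  let e : MonoidAlgebra F G ≃ₗ[MonoidAlgebra K G] (Fin d → MonoidAlgebra K G) :=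
    (LinearEquiv.ofBijective g hbij).symm
  have hd : 0 < d := Module.finrank_pos
  refine ⟨fun {n m} f hf => ?_⟩
  -- `f` is `K[G]`-linear
  let f' : (Fin n → MonoidAlgebra F G) →ₗ[MonoidAlgebra K G] (Fin m → MonoidAlgebra F G) :=
    { toFun := f
      map_add' := f.map_add
      map_smul' := fun r v => by
        change f (φ r • v) = φ r • f v
        exact f.map_smul _ _ }
  let en : (Fin n → MonoidAlgebra F G) ≃ₗ[MonoidAlgebra K G]
    (Fin n → Fin d → MonoidAlgebra K G) := LinearEquiv.piCongrRight fun _ => e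
  let em : (Fin m → MonoidAlgebra F G) ≃ₗ[MonoidAlgebra K G]
    (Fin m → Fin d → MonoidAlgebra K G) := LinearEquiv.piCongrRight fun _ => e
  let f'' : (Fin n → Fin d → MonoidAlgebra K G) →ₗ[MonoidAlgebra K G]
    (Fin m → Fin d → MonoidAlgebra K G) := (em.toLinearMap.comp f').comp en.symm.toLinearMap
  have hf'' : Function.Injective f'' :=
    (em.injective.comp hf).comp en.symm.injective
  have h1 := LinearMap.finrank_le_finrank_of_injective hf''
  rw [Module.finrank_pi_fintype, Module.finrank_pi_fintype] at h1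
  simp only [Module.finrank_pi_fintype, Module.finrank_self, Finset.sum_const, Finset.card_univ,
    Fintype.card_fin, smul_eq_mul, mul_one] at h1
  exact Nat.le_of_mul_le_mul_right h1 hd

end ext

/-- Every field has finite extensions with many elements. -/
theorem exists_ext (K : Type*) [Field K] (N : ℕ) :
    ∃ (F : IntermediateField K (AlgebraicClosure K)), FiniteDimensional K F ∧
      Nonempty (Fin N ↪ F) := by
  obtain ⟨e⟩ : Nonempty (Fin N ↪ AlgebraicClosure K) := by
    obtain ⟨s, hs⟩ := Infinite.exists_subset_card_eq (AlgebraicClosure K) N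
    exact ⟨(s.equivFinOfCardEq hs).symm.toEmbedding.trans (Function.Embedding.subtype _)⟩
  refine ⟨IntermediateField.adjoin K (Set.range e), ?_, ?_⟩
  · have hfin : (Set.range e).Finite := Set.finite_range e
    haveI := hfin.to_subtype
    exact IntermediateField.finiteDimensional_adjoin fun x _ =>
      (AlgebraicClosure.isAlgebraic K).isAlgebraic x |>.isIntegral
  · exact ⟨⟨fun i => ⟨e i, IntermediateField.subset_adjoin K _ ⟨i, rfl⟩⟩, fun i j hij =>
      e.injective (congrArg Subtype.val hij)⟩⟩

/-- Bartholdi and Kielak: for a non-amenable group the strong rank condition fails. -/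
theorem not_src {K G : Type*} [Field K] [Group G] (h : ¬ FoelnerCondition G) :
    ¬ StrongRankCondition (MonoidAlgebra K G) := by
  obtain ⟨N, hN⟩ := exists_card_bound h
  obtain ⟨F, hF, ⟨e⟩⟩ := exists_ext K N
  intro hsrc
  exact hN F e (src_of_ext hsrc)

end Pool.Agent.NilAm
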